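import Pool.Agent.Helper54.GS.Defs

/-!
# GS-8: the special linear group is perfect
-/

set_option autoImplicit false

namespace Pool.Agent.Helper54.GS

open Matrix

open scoped commutatorElement

section mat

variable {𝔽 : Type} [Field 𝔽] {n : Type} [Fintype n] [DecidableEq n]

private def g8_T {i j : n} (hij : i ≠ j) (c : 𝔽) : Matrix.SpecialLinearGroup n 𝔽 :=
  ⟨Matrix.transvection i j c, Matrix.det_transvection_of_ne i j hij c⟩

private def g8_d (i j : n) (k : n) : 𝔽 := (if k = i then 2 else 1) * (if k = j then 2⁻¹ else 1)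

private theorem g8_det (i j : n) (h2 : (2 : 𝔽) ≠ 0) :
    (Matrix.diagonal (g8_d (𝔽 := 𝔽) i j)).det = 1 := by
  rw [Matrix.det_diagonal]
  unfold g8_d
  rw [Finset.prod_mul_distrib, Finset.prod_ite_eq', Finset.prod_ite_eq']
  simp [h2]

private def g8_D (i j : n) (h2 : (2 : 𝔽) ≠ 0) : Matrix.SpecialLinearGroup n 𝔽 :=
  ⟨Matrix.diagonal (g8_d i j), g8_det i j h2⟩

private theorem g8_conj {i j : n} (hij : i ≠ j) (h2 : (2 : 𝔽) ≠ 0) (c : 𝔽) :
    g8_D i j h2 * g8_T hij c = g8_T hij (4 * c) * g8_D i j h2 := by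
  apply Subtype.ext
  change Matrix.diagonal (g8_d (𝔽 := 𝔽) i j) * Matrix.transvection i j c =
    Matrix.transvection i j (4 * c) * Matrix.diagonal (g8_d i j)
  unfold Matrix.transvection
  rw [mul_add, add_mul, mul_one, one_mul]
  congr 1
  ext k l
  rw [Matrix.diagonal_mul, Matrix.mul_diagonal, Matrix.single_apply, Matrix.single_apply]
  by_cases h : i = k ∧ j = l
  · rw [if_pos h, if_pos h, ← h.1, ← h.2]
    unfold g8_d
    rw [if_pos rfl, if_neg hij, if_neg hij.symm, if_pos rfl]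
    field_simp
    ring
  · rw [if_neg h, if_neg h, mul_zero, zero_mul]

private theorem g8_mul {i j : n} (hij : i ≠ j) (c d : 𝔽) :
    g8_T hij c * g8_T hij d = g8_T hij (c + d) := by
  apply Subtype.ext
  exact Matrix.transvection_mul_transvection_same i j hij c d

private theorem g8_zero {i j : n} (hij : i ≠ j) : g8_T hij (0 : 𝔽) = 1 := by
  apply Subtype.ext
  exact Matrix.transvection_zero i j

private theorem g8_pow {i j : n} (hij : i ≠ j) (c : 𝔽) (m : ℕ) :
    g8_T hij c ^ m = g8_T hij (m * c) := by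
  induction m with
  | zero => rw [pow_zero, Nat.cast_zero, zero_mul, g8_zero]
  | succ m ih =>
    rw [pow_succ, ih, g8_mul]
    congr 1
    push_cast
    ring

private theorem g8_ne {i j : n} (hij : i ≠ j) {c : 𝔽} (hc : c ≠ 0) : g8_T hij c ≠ 1 := by
  intro h
  have h1 := congrArg (fun A : Matrix.SpecialLinearGroup n 𝔽 => (A : Matrix n n 𝔽) i j) h
  simp only [g8_T, Matrix.transvection, Matrix.add_apply, Matrix.single_apply_same,
    Matrix.SpecialLinearGroup.coe_one, Matrix.one_apply_ne hij, zero_add] at h1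
  exact hc h1

end mat

/-- GS-8 -/
theorem commutator_sl {p : ℕ} [Fact p.Prime] {𝔽 : Type} [Field 𝔽] [Finite 𝔽] [CharP 𝔽 p]
    {V : Type} [AddCommGroup V] [Module 𝔽 V] [FiniteDimensional 𝔽 V] (hp5 : 5 ≤ p)
    (hV : 2 ≤ Module.finrank 𝔽 V)
    (hn : ∀ τ : SpecialLinearGroup 𝔽 V, orderOf τ = p →
      Subgroup.normalClosure ({τ} : Set (SpecialLinearGroup 𝔽 V)) = ⊤) :
    commutator (SpecialLinearGroup 𝔽 V) = ⊤ := by
  have hnat : ∀ m : ℕ, 0 < m → m < p → (m : 𝔽) ≠ 0 := by
    intro m h0 h1 h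
    rw [CharP.cast_eq_zero_iff 𝔽 p] at h
    exact absurd (Nat.le_of_dvd h0 h) (by omega)
  have h2 : (2 : 𝔽) ≠ 0 := by exact_mod_cast hnat 2 (by omega) (by omega)
  have h3 : (3 : 𝔽) ≠ 0 := by exact_mod_cast hnat 3 (by omega) (by omega)
  let i : Fin (Module.finrank 𝔽 V) := ⟨0, by omega⟩
  let j : Fin (Module.finrank 𝔽 V) := ⟨1, by omega⟩
  have hij : i ≠ j := by
    intro h
    have := congrArg Fin.val h
    exact absurd this (by simp [i, j])
  let e := SpecialLinearGroup.toLin_equiv (Module.finBasis 𝔽 V)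
  let T : Matrix.SpecialLinearGroup (Fin (Module.finrank 𝔽 V)) 𝔽 := g8_T hij 3
  have hT : orderOf T = p := by
    apply orderOf_eq_prime
    · rw [g8_pow, CharP.cast_eq_zero, zero_mul, g8_zero]
    · exact g8_ne hij h3
  have hcomm : T = ⁅g8_D i j h2, g8_T hij (1 : 𝔽)⁆ := by
    rw [commutatorElement_def, g8_conj hij h2]
    have h5 : T * g8_T hij (1 : 𝔽) = g8_T hij (4 * 1) := by
      rw [g8_mul]
      congr 1
      norm_num
    rw [← h5]
    group
  have hmem : e T ∈ commutator (SpecialLinearGroup 𝔽 V) := by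
    rw [hcomm, map_commutatorElement]
    exact Subgroup.commutator_mem_commutator (Subgroup.mem_top _) (Subgroup.mem_top _)
  have horder : orderOf (e T) = p := by
    rw [MulEquiv.orderOf_eq]
    exact hT
  rw [eq_top_iff, ← hn (e T) horder]
  apply Subgroup.normalClosure_le_normal
  intro x hx
  rw [Set.mem_singleton_iff] at hx
  rw [hx]
  exact hmem

end Pool.Agent.Helper54.GS
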